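import Mathlib

open Polynomial

namespace Pool.Agent.Results.MP_51a8c5_co.AnyDegree

/-- The finite set of all connected sets of a finite graph `G`: the vertex sets `S` whose induced
subgraph is connected (in Mathlib this includes that `S` is nonempty). -/
noncomputable def connectedSets {V : Type} [Fintype V] (G : SimpleGraph V) :
    Finset (Finset V) := by
  classical
  exact Finset.univ.filter (fun S : Finset V => (G.induce (S : Set V)).Connected)

/-- The connected set polynomial `C(G;x) = ∑ x^|S|` over the connected sets `S` of `G`. -/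
noncomputable def connectedSetPoly {V : Type} [Fintype V] (G : SimpleGraph V) : ℝ[X] :=
  ∑ S ∈ connectedSets G, X ^ S.card

/-- The node reliability `NRel(G;p) = ∑ p^|S| (1-p)^(n-|S|)` over the connected sets `S` of `G`,
where `n` is the number of vertices of `G`. -/
noncomputable def nodeReliability {V : Type} [Fintype V] (G : SimpleGraph V) : ℝ[X] :=
  ∑ S ∈ connectedSets G, X ^ S.card * (1 - X) ^ (Fintype.card V - S.card)

/-- A real polynomial has all real roots if each of its complex roots is real. -/
def AllRealRoots (f : ℝ[X]) : Prop :=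
  ∀ z : ℂ, Polynomial.aeval z f = 0 → z.im = 0

/-! ### The node reliability is a Moebius transform of the connected set polynomial -/

theorem nodeReliability_real {V : Type} [Fintype V] (G : SimpleGraph V)
    (h : AllRealRoots (connectedSetPoly G)) : AllRealRoots (nodeReliability G) := by
  intro z hz
  by_cases hz1 : z = 1
  · simp [hz1]
  have h1 : (1 - z) ≠ 0 := sub_ne_zero.mpr (Ne.symm hz1)
  set w : ℂ := z / (1 - z) with hw
  have key : Polynomial.aeval z (nodeReliability G)
      = (1 - z) ^ (Fintype.card V) * Polynomial.aeval w (connectedSetPoly G) := by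
    unfold nodeReliability connectedSetPoly
    simp only [map_sum, map_mul, map_pow, aeval_X, map_sub, map_one]
    rw [Finset.mul_sum]
    refine Finset.sum_congr rfl fun S _ => ?_
    have hS : S.card ≤ Fintype.card V := Finset.card_le_univ S
    have hsplit : (1 - z) ^ (Fintype.card V) = (1 - z) ^ S.card * (1 - z) ^ (Fintype.card V - S.card) := by
      rw [← pow_add]; congr 1; omega
    rw [hsplit, hw, div_pow]
    have h2 : (1 - z) ^ S.card ≠ 0 := pow_ne_zero _ h1
    field_simp
  rw [key] at hz
  have hC : Polynomial.aeval w (connectedSetPoly G) = 0 := by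
    rcases mul_eq_zero.mp hz with h' | h'
    · exact absurd h' (pow_ne_zero _ h1)
    · exact h'
  have hwim : w.im = 0 := h w hC
  have hzw : z * (1 + w) = w := by
    rw [hw]; field_simp; ring
  have hw1 : 1 + w ≠ 0 := by
    intro h0
    rw [h0, mul_zero] at hzw
    rw [← hzw] at h0
    simp at h0
  have hz' : z = w / (1 + w) := by
    rw [eq_div_iff hw1]; exact hzw
  obtain ⟨r, hr⟩ : ∃ r : ℝ, w = (r : ℂ) := ⟨w.re, by apply Complex.ext <;> simp [hwim]⟩
  rw [hz', hr]
  have : (r : ℂ) / (1 + (r : ℂ)) = ((r / (1 + r) : ℝ) : ℂ) := by push_cast; ring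
  rw [this]
  exact Complex.ofReal_im _

/-! ### Disjoint unions of complete graphs -/

/-- The disjoint union of complete graphs with `s i` vertices, `i : ι`. -/
def cliques {ι : Type} (s : ι → ℕ) : SimpleGraph (Σ i : ι, Fin (s i)) where
  Adj u v := u ≠ v ∧ u.1 = v.1
  symm := ⟨fun _ _ h => ⟨h.1.symm, h.2.symm⟩⟩
  loopless := ⟨fun _ h => h.1 rfl⟩

theorem cliques_adj {ι : Type} (s : ι → ℕ) (u v : Σ i : ι, Fin (s i)) :
    (cliques s).Adj u v ↔ u ≠ v ∧ u.1 = v.1 := Iff.rfl

theorem cliques_conn_iff {ι : Type} (s : ι → ℕ) (S : Finset (Σ i : ι, Fin (s i))) :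
    ((cliques s).induce (S : Set (Σ i : ι, Fin (s i)))).Connected ↔
      S.Nonempty ∧ ∃ i, ∀ u ∈ S, u.1 = i := by
  constructor
  · intro h
    obtain ⟨⟨v, hv⟩⟩ := h.nonempty
    refine ⟨⟨v, hv⟩, v.1, fun u hu => ?_⟩
    have hr := h.preconnected ⟨u, hu⟩ ⟨v, hv⟩
    obtain ⟨p⟩ := hr
    have : ∀ (a b : (S : Set (Σ i : ι, Fin (s i)))),
        ((cliques s).induce (S : Set (Σ i : ι, Fin (s i)))).Walk a b → a.1.1 = b.1.1 := by
      intro a b q
      induction q with
      | nil => rfl
      | cons hadj _ ih =>
        rw [SimpleGraph.comap_adj, cliques_adj] at hadj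
        exact (hadj.2).trans ih
    exact this _ _ p
  · rintro ⟨⟨v, hv⟩, i, hi⟩
    have : Nonempty ((S : Set (Σ i : ι, Fin (s i)))) := ⟨⟨v, hv⟩⟩
    refine ⟨fun a b => ?_⟩
    by_cases hab : a = b
    · subst hab; exact SimpleGraph.Reachable.refl _
    · apply SimpleGraph.Adj.reachable
      rw [SimpleGraph.comap_adj, cliques_adj]
      refine ⟨fun h => hab (Subtype.ext h), ?_⟩
      exact (hi a.1 a.2).trans (hi b.1 b.2).symm

theorem cliques_poly {ι : Type} [Fintype ι] (s : ι → ℕ) :
    connectedSetPoly (cliques s) = ∑ i : ι, ((1 + X) ^ (s i) - 1 : ℝ[X]) := by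
  classical
  set fib : ι → Finset (Σ i : ι, Fin (s i)) := fun i => Finset.univ.filter (fun u => u.1 = i)
    with hfib
  have hcard : ∀ i, (fib i).card = s i := by
    intro i
    have : fib i = (Finset.univ : Finset (Fin (s i))).map ⟨fun x => (⟨i, x⟩ : Σ i : ι, Fin (s i)),
        fun x y hxy => by simpa using hxy⟩ := by
      ext ⟨j, x⟩
      simp only [hfib, Finset.mem_filter, Finset.mem_univ, true_and, Finset.mem_map]
      constructor
      · intro h; subst h; exact ⟨x, rfl⟩
      · rintro ⟨y, hy⟩
        exact (congrArg Sigma.fst hy).symm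
    rw [this, Finset.card_map, Finset.card_univ, Fintype.card_fin]
  have hset : connectedSets (cliques s)
      = Finset.univ.biUnion (fun i => (fib i).powerset.erase ∅) := by
    ext S
    simp only [connectedSets, Finset.mem_filter, Finset.mem_univ, true_and, Finset.mem_biUnion,
      Finset.mem_erase, Finset.mem_powerset]
    rw [cliques_conn_iff]
    constructor
    · rintro ⟨hne, i, hi⟩
      refine ⟨i, Finset.nonempty_iff_ne_empty.mp hne, fun u hu => ?_⟩
      simp [hfib, hi u hu]
    · rintro ⟨i, hne, hsub⟩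
      refine ⟨Finset.nonempty_iff_ne_empty.mpr hne, i, fun u hu => ?_⟩
      have := hsub hu
      simpa [hfib] using this
  unfold connectedSetPoly
  rw [hset, Finset.sum_biUnion]
  · refine Finset.sum_congr rfl fun i _ => ?_
    have h1 : ∑ S ∈ (fib i).powerset, (X : ℝ[X]) ^ S.card = (1 + X) ^ (s i) := by
      have := Finset.sum_pow_mul_eq_add_pow (X : ℝ[X]) 1 (fib i)
      simp only [one_pow, mul_one] at this
      rw [this, hcard, add_comm]
    rw [← h1, ← Finset.add_sum_erase (fib i).powerset (fun S => (X : ℝ[X]) ^ S.card)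
      (Finset.empty_mem_powerset (fib i))]
    simp
  · intro i _ j _ hij
    rw [Function.onFun, Finset.disjoint_left]
    intro S hSi hSj
    simp only [Finset.mem_erase, Finset.mem_powerset] at hSi hSj
    obtain ⟨u, hu⟩ := Finset.nonempty_iff_ne_empty.mpr hSi.1
    have h1 := hSi.2 hu
    have h2 := hSj.2 hu
    simp only [hfib, Finset.mem_filter, Finset.mem_univ, true_and] at h1 h2
    exact hij (h1.symm.trans h2)

/-! ### Real-rootedness by sign changes -/

/-- The polynomial `∑_{j=1}^d m_j ((1+x)^j - 1)`. -/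
noncomputable def mix (m : ℕ → ℕ) (d : ℕ) : ℝ[X] :=
  ∑ j ∈ Finset.Icc 1 d, C (m j : ℝ) * ((1 + X) ^ j - 1)

theorem mix_natDegree (m : ℕ → ℕ) (d : ℕ) (hd : 1 ≤ d) (hm : m d ≠ 0) :
    (mix m d).natDegree = d := by
  have hp : ∀ j : ℕ, 1 ≤ j → ((1 + X : ℝ[X]) ^ j - 1).natDegree = j := by
    intro j hj
    have h1 : ((1 + X : ℝ[X]) ^ j).natDegree = j := by
      rw [natDegree_pow, add_comm 1 X, show (1 : ℝ[X]) = C 1 from rfl, natDegree_X_add_C, mul_one]
    rw [natDegree_sub_eq_left_of_natDegree_lt, h1]
    rw [h1, natDegree_one]; omega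
  obtain ⟨e, rfl⟩ : ∃ e, d = e + 1 := ⟨d - 1, by omega⟩
  unfold mix
  rw [Finset.sum_Icc_succ_top (by omega)]
  have htop : (C (m (e + 1) : ℝ) * ((1 + X : ℝ[X]) ^ (e + 1) - 1)).natDegree = e + 1 := by
    rw [natDegree_C_mul (by exact_mod_cast hm), hp _ (by omega)]
  rw [natDegree_add_eq_right_of_natDegree_lt, htop]
  rw [htop]
  apply Nat.lt_succ_of_le
  apply natDegree_sum_le_of_forall_le
  intro j hj
  rw [Finset.mem_Icc] at hj
  refine (natDegree_C_mul_le _ _).trans ?_
  rw [hp j hj.1]; exact hj.2

/-- Enough alternating sign changes force all complex roots to be real. -/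
theorem allReal_of_signs (f : ℝ[X]) (d : ℕ) (hf : f.natDegree = d) (hd : 1 ≤ d) (y : ℕ → ℝ)
    (hy : ∀ i < d, y (i + 1) < y i) (hs : ∀ i ≤ d, 0 < (-1 : ℝ) ^ i * f.eval (y i)) :
    AllRealRoots f := by
  have hf0 : f ≠ 0 := by
    rintro rfl; simp at hf; omega
  -- a root in each interval
  have hroot : ∀ i : Fin d, ∃ r : ℝ, y (i + 1) < r ∧ r < y i ∧ f.eval r = 0 := by
    intro i
    have h1 := hs i (le_of_lt i.2)
    have h2 := hs (i + 1) i.2
    have hlt := hy i i.2
    have hcont : ContinuousOn (fun x => f.eval x) (Set.Icc (y (i + 1)) (y i)) :=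
      f.continuous.continuousOn
    rcases neg_one_pow_eq_or ℝ (i : ℕ) with he | he
    · rw [pow_succ, he] at h2
      rw [he] at h1
      have := intermediate_value_Ioo hlt.le hcont
      have hmem : (0 : ℝ) ∈ Set.Ioo (f.eval (y (i + 1))) (f.eval (y i)) := by
        constructor <;> nlinarith
      obtain ⟨r, hr, hr0⟩ := this hmem
      exact ⟨r, hr.1, hr.2, hr0⟩
    · rw [pow_succ, he] at h2
      rw [he] at h1
      have := intermediate_value_Ioo' hlt.le hcont
      have hmem : (0 : ℝ) ∈ Set.Ioo (f.eval (y i)) (f.eval (y (i + 1))) := by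
        constructor <;> nlinarith
      obtain ⟨r, hr, hr0⟩ := this hmem
      exact ⟨r, hr.1, hr.2, hr0⟩
  choose r hr1 hr2 hr0 using hroot
  have hanti : ∀ i j : ℕ, i ≤ j → j ≤ d → y j ≤ y i := by
    intro i j hij
    induction j, hij using Nat.le_induction with
    | base => intro _; exact le_refl _
    | succ k hk ih =>
      intro hkd
      exact (hy k (by omega)).le.trans (ih (by omega))
  have hinj : Function.Injective r := by
    intro i j hij
    by_contra hne
    rcases lt_or_gt_of_ne (fun h => hne (Fin.ext h) : (i : ℕ) ≠ j) with h | h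
    · have h1 := hanti (i + 1) j (by omega) (by omega)
      have h2 := hr1 i
      have h3 := hr2 j
      rw [hij] at h2
      linarith
    · have h1 := hanti (j + 1) i (by omega) (by omega)
      have h2 := hr1 j
      have h3 := hr2 i
      rw [hij] at h3
      linarith
  have hcardle : d ≤ Multiset.card f.roots := by
    classical
    have hsub : (Finset.univ.image r) ⊆ f.roots.toFinset := by
      intro x hx
      rw [Finset.mem_image] at hx
      obtain ⟨i, _, rfl⟩ := hx
      rw [Multiset.mem_toFinset, mem_roots hf0]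
      exact hr0 i
    have h1 := Finset.card_le_card hsub
    rw [Finset.card_image_of_injective _ hinj, Finset.card_univ, Fintype.card_fin] at h1
    exact h1.trans (Multiset.toFinset_card_le _)
  have hcard : Multiset.card f.roots = f.natDegree :=
    le_antisymm (card_roots' f) (hf ▸ hcardle)
  intro z hz
  have hprod := C_leadingCoeff_mul_prod_multiset_X_sub_C hcard
  rw [← hprod, map_mul, aeval_C, map_multiset_prod, Multiset.map_map] at hz
  rcases mul_eq_zero.mp hz with h | h
  · exfalso
    have : f.leadingCoeff = 0 := by simpa using h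
    exact hf0 (leadingCoeff_eq_zero.mp this)
  · rw [Multiset.prod_eq_zero_iff, Multiset.mem_map] at h
    obtain ⟨a, _, ha⟩ := h
    simp only [Function.comp, map_sub, aeval_X, aeval_C] at ha
    have : z = ((a : ℝ) : ℂ) := sub_eq_zero.mp ha
    rw [this]
    exact Complex.ofReal_im a

/-- Multiplicities with the alternating sign property, by induction on the degree. -/
theorem exists_mult (d : ℕ) (hd : 1 ≤ d) :
    ∃ m : ℕ → ℕ, 2 ≤ m 1 ∧ m d ≠ 0 ∧ ∃ y : ℕ → ℝ, (∀ i < d, y (i + 1) < y i) ∧
      (∀ i ≤ d, 0 < (-1 : ℝ) ^ i * (mix m d).eval (y i)) := by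
  induction d, hd using Nat.le_induction with
  | base =>
    refine ⟨fun _ => 2, le_refl _, by norm_num, fun i => if i = 0 then 1 else -1, ?_, ?_⟩
    · intro i hi
      interval_cases i
      norm_num
    · intro i hi
      interval_cases i
      · simp [mix]
      · simp [mix]
  | succ d hd ih =>
    obtain ⟨m, hm1, hmd, y, hy, hs⟩ := ih
    -- choose a large multiplier
    have hM : ∃ M : ℕ, 1 ≤ M ∧ ∀ i ≤ d,
        0 < (-1 : ℝ) ^ i * ((M : ℝ) * (mix m d).eval (y i) + ((1 + y i) ^ (d + 1) - 1)) := by
      have hone : ∀ i ≤ d, ∃ M0 : ℕ, ∀ M : ℕ, M0 ≤ M →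
          0 < (-1 : ℝ) ^ i * ((M : ℝ) * (mix m d).eval (y i) + ((1 + y i) ^ (d + 1) - 1)) := by
        intro i hi
        have hpos := hs i hi
        obtain ⟨M0, hM0⟩ := exists_nat_gt
          ((-((-1 : ℝ) ^ i * ((1 + y i) ^ (d + 1) - 1))) / ((-1 : ℝ) ^ i * (mix m d).eval (y i)))
        refine ⟨M0, fun M hM => ?_⟩
        rw [div_lt_iff₀ hpos] at hM0
        have hle : (M0 : ℝ) * ((-1 : ℝ) ^ i * (mix m d).eval (y i))
            ≤ (M : ℝ) * ((-1 : ℝ) ^ i * (mix m d).eval (y i)) :=
          mul_le_mul_of_nonneg_right (by exact_mod_cast hM) hpos.le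
        nlinarith
      choose! M0 hM0 using hone
      refine ⟨1 + ∑ i ∈ Finset.range (d + 1), M0 i, by omega, fun i hi => hM0 i hi _ ?_⟩
      have : M0 i ≤ ∑ i ∈ Finset.range (d + 1), M0 i :=
        Finset.single_le_sum (f := M0) (fun _ _ => Nat.zero_le _) (Finset.mem_range.mpr (by omega))
      omega
    obtain ⟨M, hM1, hM⟩ := hM
    set m' : ℕ → ℕ := fun j => if j = d + 1 then 1 else M * m j with hm'
    have hmix : mix m' (d + 1) = C (M : ℝ) * mix m d + ((1 + X) ^ (d + 1) - 1) := by
      unfold mix
      rw [Finset.sum_Icc_succ_top (by omega), Finset.mul_sum]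
      congr 1
      · refine Finset.sum_congr rfl fun j hj => ?_
        rw [Finset.mem_Icc] at hj
        have : j ≠ d + 1 := by omega
        simp only [hm', this, if_false]
        push_cast
        rw [C_mul]
        ring
      · simp [hm']
    have hmixeval : ∀ x : ℝ, (mix m' (d + 1)).eval x
        = (M : ℝ) * (mix m d).eval x + ((1 + x) ^ (d + 1) - 1) := by
      intro x; rw [hmix]; simp
    -- a new point far to the left
    have hdeg : (mix m' (d + 1)).natDegree = d + 1 :=
      mix_natDegree m' (d + 1) (by omega) (by simp [hm'])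
    have hnew : ∃ x : ℝ, x < y d ∧ 0 < (-1 : ℝ) ^ (d + 1) * (mix m' (d + 1)).eval x := by
      -- compose with -X
      set q : ℝ[X] := C ((-1 : ℝ) ^ (d + 1)) * (mix m' (d + 1)).comp (-X) with hq
      have hcomp : ((mix m' (d + 1)).comp (-X)).natDegree = d + 1 := by
        rw [natDegree_comp, natDegree_neg, natDegree_X, mul_one, hdeg]
      have hqdeg : q.natDegree = d + 1 := by
        rw [hq, natDegree_C_mul (pow_ne_zero _ (by norm_num)), hcomp]
      have hlead0 : (mix m' (d + 1)).leadingCoeff = 1 := by
        rw [hmix]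
        have h1 : ((1 + X : ℝ[X]) ^ (d + 1) - 1).natDegree = d + 1 := by
          have h1 : ((1 + X : ℝ[X]) ^ (d + 1)).natDegree = d + 1 := by
            rw [natDegree_pow, add_comm 1 X, show (1 : ℝ[X]) = C 1 from rfl, natDegree_X_add_C, mul_one]
          rw [natDegree_sub_eq_left_of_natDegree_lt, h1]
          rw [h1, natDegree_one]; omega
        have h2 : (C (M : ℝ) * mix m d).natDegree < ((1 + X : ℝ[X]) ^ (d + 1) - 1).natDegree := by
          rw [h1]
          refine lt_of_le_of_lt (natDegree_C_mul_le _ _) ?_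
          rw [mix_natDegree m d hd hmd]; omega
        rw [leadingCoeff_add_of_degree_lt]
        · have h3 : ((1 + X : ℝ[X]) ^ (d + 1)).leadingCoeff = 1 := by
            rw [leadingCoeff_pow, add_comm 1 X, show (1 : ℝ[X]) = C 1 from rfl, leadingCoeff_X_add_C,
              one_pow]
          rw [leadingCoeff_sub_of_degree_lt, h3]
          apply degree_lt_degree
          rw [natDegree_one, natDegree_pow, add_comm 1 X, show (1 : ℝ[X]) = C 1 from rfl,
            natDegree_X_add_C, mul_one]
          omega
        · exact degree_lt_degree h2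
      have hqlead : q.leadingCoeff = 1 := by
        rw [hq, leadingCoeff_mul, leadingCoeff_C, leadingCoeff_comp (by simp)]
        rw [hlead0, hdeg, leadingCoeff_neg, leadingCoeff_X, one_mul, ← mul_pow]
        norm_num
      have htend : Filter.Tendsto (fun x => q.eval x) Filter.atTop Filter.atTop := by
        apply q.tendsto_atTop_of_leadingCoeff_nonneg
        · rw [degree_eq_natDegree (by rintro h; rw [h] at hqlead; simp at hqlead), hqdeg]
          exact_mod_cast Nat.succ_pos d
        · rw [hqlead]; norm_num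
      obtain ⟨x, hx1, hx2⟩ := ((htend.eventually_gt_atTop 0).and
        (Filter.eventually_gt_atTop (-(y d)))).exists
      refine ⟨-x, by linarith, ?_⟩
      have : q.eval x = (-1 : ℝ) ^ (d + 1) * (mix m' (d + 1)).eval (-x) := by
        rw [hq]; simp [eval_comp]
      rw [← this]; exact hx1
    obtain ⟨x, hx1, hx2⟩ := hnew
    refine ⟨m', ?_, by simp [hm'], fun i => if i = d + 1 then x else y i, ?_, ?_⟩
    · have h1 : (1 : ℕ) ≠ d + 1 := by omega
      simp only [hm', h1, if_false]
      nlinarith
    · intro i hi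
      have h1 : i ≠ d + 1 := by omega
      simp only [h1, if_false]
      by_cases h2 : i + 1 = d + 1
      · simp only [h2, if_true]
        have : i = d := by omega
        rw [this]; exact hx1
      · simp only [h2, if_false]
        exact hy i (by omega)
    · intro i hi
      by_cases h1 : i = d + 1
      · simp only [h1, if_true]
        exact hx2
      · simp only [h1, if_false]
        rw [hmixeval]
        exact hM i (by omega)

/-- **Main theorem.** For every `d ≥ 1` there is a disconnected finite graph `G` whose connected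
set polynomial has degree exactly `d` and such that both the connected set polynomial and the node
reliability of `G` have all real roots. -/
theorem result : ∀ d : ℕ, 1 ≤ d → ∃ (V : Type) (_ : Fintype V) (G : SimpleGraph V),
    ¬ G.Preconnected ∧ (connectedSetPoly G).natDegree = d ∧
      AllRealRoots (connectedSetPoly G) ∧ AllRealRoots (nodeReliability G) := by
  intro d hd
  obtain ⟨m, hm1, hmd, y, hy, hs⟩ := exists_mult d hd
  set s : (Σ j : Fin d, Fin (m (j + 1))) → ℕ := fun i => i.1 + 1 with hsdef
  have hpoly : connectedSetPoly (cliques s) = mix m d := by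
    rw [cliques_poly, Fintype.sum_sigma]
    unfold mix
    simp only [hsdef, Finset.sum_const, Finset.card_univ, Fintype.card_fin, nsmul_eq_mul]
    rw [Fin.sum_univ_eq_sum_range (fun j => ((m (j + 1) : ℕ) : ℝ[X]) * ((1 + X) ^ (j + 1) - 1)) d]
    rw [Finset.range_eq_Ico, Finset.sum_Ico_add' (fun j => ((m j : ℕ) : ℝ[X]) * ((1 + X) ^ j - 1)) 0 d 1]
    have : Finset.Ico (0 + 1) (d + 1) = Finset.Icc 1 d := by
      ext j; simp only [Finset.mem_Ico, Finset.mem_Icc]; omega
    rw [this]
    refine Finset.sum_congr rfl fun j _ => ?_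
    rw [map_natCast]
  have hreal : AllRealRoots (connectedSetPoly (cliques s)) := by
    rw [hpoly]
    exact allReal_of_signs (mix m d) d (mix_natDegree m d hd hmd) hd y hy hs
  refine ⟨_, inferInstance, cliques s, ?_, ?_, hreal, nodeReliability_real _ hreal⟩
  · intro hpre
    have hm1' : 2 ≤ m ((⟨0, by omega⟩ : Fin d) + 1) := by simpa using hm1
    set a : Σ i : (Σ j : Fin d, Fin (m (j + 1))), Fin (s i) :=
      ⟨⟨⟨0, by omega⟩, ⟨0, by omega⟩⟩, ⟨0, by simp [hsdef]⟩⟩ with ha
    set b : Σ i : (Σ j : Fin d, Fin (m (j + 1))), Fin (s i) :=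
      ⟨⟨⟨0, by omega⟩, ⟨1, by omega⟩⟩, ⟨0, by simp [hsdef]⟩⟩ with hb
    obtain ⟨p⟩ := hpre a b
    have hwalk : ∀ u v, (cliques s).Walk u v → u.1 = v.1 := by
      intro u v q
      induction q with
      | nil => rfl
      | cons hadj _ ih =>
        rw [cliques_adj] at hadj
        exact (hadj.2).trans ih
    have := hwalk _ _ p
    simp [ha, hb] at this
  · rw [hpoly]; exact mix_natDegree m d hd hmd

end Pool.Agent.Results.MP_51a8c5_co.AnyDegree
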